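import Pool.Agent.Q5.AltChar.Final

set_option autoImplicit false

universe u

namespace Pool.Agent.Results.MP_9e3efc_al.DegreeNine

open Q5.AltChar Finset

/-- For every `d` there is exactly one pair `(a, b)` which satisfies the two equations. For `d = 4`
and every field `k`, the element `a` of this pair is not the class of the free alternative algebra
on `V = k ^ 4`: its component of degree nine has dimension `261176`, and the component of degree
nine of the free alternative algebra has dimension at least `4 ^ 9 = 262144`. -/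
theorem result :
    (∀ d : ℕ, ∃! p : ((Fin d →₀ ℕ) → ℤ) × ((Fin d →₀ ℕ) → ℤ), IsSolution p.1 p.2) ∧
    ∀ (k : Type u) [Field k] (a b : (Fin 4 →₀ ℕ) → ℤ), IsSolution a b →
      a ≠ altChar k ∧
      ∑ α ∈ finsuppAntidiag univ 9, a α = 261176 ∧
      4 ^ 9 ≤ ∑ α ∈ finsuppAntidiag univ 9, altChar k (d := 4) α := by
  refine ⟨fun d => ?_, fun k _ a b h => ⟨ne_altChar k h, dim_nine h, ?_⟩⟩
  · obtain ⟨a, b, h⟩ := exists_solution d
    refine ⟨(a, b), h, ?_⟩
    rintro ⟨a', b'⟩ h'
    obtain ⟨h1, h2⟩ := IsSolution.unique h' h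
    exact Prod.ext h1 h2
  · exact_mod_cast pow_le_sum_altChar k (d := 4) 8

end Pool.Agent.Results.MP_9e3efc_al.DegreeNine
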